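import Pool.Agent.W450.RigFam
import Pool.Agent.W450.RigGreen
import Pool.Agent.W450.RigNS
import Pool.Agent.W450.RigConn
import Pool.Agent.W495.Family
import Pool.Agent.W881.GamEmb
import Pool.Agent.W881.GamConn

/-!
# The modules of the orthogonal family are pairwise orthogonal bricks
-/

set_option autoImplicit false

namespace Pool.Agent.Y374.RIG

open CategoryTheory CategoryTheory.Limits CategoryTheory.Abelian W450.Rig W881.GS

universe u

/-- Schur's lemma for two irreducible representations of different dimensions. -/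
theorem irr_hom_zero {K : Type u} [Field K] [CharZero K] {a b : ℕ} (hab : a ≠ b)
    (m : (Fin (a + 1) → K) →ₗ[K] (Fin (b + 1) → K))
    (he : adj (irr K a).e (irr K b).e m = 0) (hf : adj (irr K a).f (irr K b).f m = 0)
    (hh : adj (irr K a).h (irr K b).h m = 0) : m = 0 := by
  have e1 : ∀ x, (irrE K b).mulVec (m x) = m ((irrE K a).mulVec x) := fun x =>
    sub_eq_zero.1 (LinearMap.congr_fun he x)
  have f1 : ∀ x, (irrF K b).mulVec (m x) = m ((irrF K a).mulVec x) := fun x =>
    sub_eq_zero.1 (LinearMap.congr_fun hf x)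
  have h1 : ∀ x, (irrH K b).mulVec (m x) = m ((irrH K a).mulVec x) := fun x =>
    sub_eq_zero.1 (LinearMap.congr_fun hh x)
  -- the highest weight vector
  have hE0 : (irrE K a).mulVec (Pi.single 0 1) = 0 := by
    funext i
    rw [irrE_apply, Pi.zero_apply]
    split_ifs with h
    · rw [Pi.single_eq_of_ne, mul_zero]
      intro h2
      have := congrArg Fin.val h2
      simp at this
    · rfl
  have hH0 : (irrH K a).mulVec (Pi.single 0 1) = (-(a : K) / 2) • (Pi.single 0 1 : Fin (a + 1) → K) := by
    funext i
    rw [irrH_apply, Pi.smul_apply, smul_eq_mul]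
    by_cases hi : i = 0
    · subst hi
      simp
      ring
    · rw [Pi.single_eq_of_ne hi, mul_zero, mul_zero]
  have h0 : m (Pi.single 0 1) = 0 := by
    funext i
    rw [Pi.zero_apply]
    rcases Nat.eq_zero_or_pos (i : ℕ) with hi | hi
    · have h2 := congrFun (h1 (Pi.single 0 1)) i
      rw [hH0, map_smul, irrH_apply, Pi.smul_apply, smul_eq_mul, hi, Nat.cast_zero] at h2
      have h3 : ((a : K) - b) * m (Pi.single 0 1) i = 0 := by linear_combination 2 * h2
      rcases mul_eq_zero.1 h3 with h4 | h4
      · exfalso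
        apply hab
        exact_mod_cast sub_eq_zero.1 h4
      · exact h4
    · have hlt := i.isLt
      have hj : ((i : ℕ) - 1) + 1 < b + 1 := by omega
      have h2 := congrFun (e1 (Pi.single 0 1)) ⟨(i : ℕ) - 1, by omega⟩
      rw [hE0, map_zero, irrE_apply, Pi.zero_apply, dif_pos hj] at h2
      have h3 : (⟨(i : ℕ) - 1 + 1, hj⟩ : Fin (b + 1)) = i := Fin.ext (by simp only; omega)
      simp only at h2
      rw [h3] at h2
      have h4 : ((((i : ℕ) - 1 : ℕ) : K) + 1) ≠ 0 := Nat.cast_add_one_ne_zero _
      exact (mul_eq_zero.1 h2).resolve_left h4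
  have hk : ∀ (k : ℕ) (hk : k < a + 1), m (Pi.single ⟨k, hk⟩ 1) = 0 := by
    intro k
    induction k with
    | zero => intro hk; exact h0
    | succ k ih =>
      intro hk
      have h2 : (irrF K a).mulVec (Pi.single ⟨k, by omega⟩ 1) =
          (((a : K) - k) / 2) • (Pi.single ⟨k + 1, hk⟩ 1 : Fin (a + 1) → K) := by
        funext i
        rw [irrF_apply, Pi.smul_apply, smul_eq_mul]
        by_cases hi : i = ⟨k + 1, hk⟩
        · subst hi
          simp
          ring
        · rw [Pi.single_eq_of_ne hi, mul_zero]
          split_ifs with h5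
          · rw [Pi.single_eq_of_ne, mul_zero]
            intro h6
            apply hi
            have := congrArg Fin.val h6
            simp only at this
            exact Fin.ext (by simp only; omega)
          · rfl
      have h3 := f1 (Pi.single ⟨k, by omega⟩ 1)
      rw [ih (by omega), h2, map_smul, Matrix.mulVec_zero] at h3
      have h4 : (((a : K) - k) / 2) ≠ 0 := by
        have : (a : K) ≠ k := by
          have : a ≠ k := by omega
          exact_mod_cast this
        exact div_ne_zero (sub_ne_zero.2 this) two_ne_zero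
      exact (smul_eq_zero.1 h3.symm).resolve_left h4
  apply LinearMap.pi_ext'
  intro k
  apply LinearMap.ext_ring
  simp only [LinearMap.comp_apply, LinearMap.single_apply, LinearMap.zero_apply]
  exact hk k k.isLt

/-- Non-zero homomorphisms between the modules of the family are automorphisms. -/
theorem wm_brick {K : Type u} [Field K] [CharZero K] (a b : ℕ)
    (ψ : (irr K a).Wm →ₗ[Rg K] (irr K b).Wm) (hψ : ψ ≠ 0) : a = b ∧ Function.Bijective ψ := by
  by_cases hab : a = b
  · subst hab
    obtain ⟨m, hm, h1, h2, h3⟩ := (irr K a).hom_desc (irr K a) ψ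
    refine ⟨rfl, ?_⟩
    obtain ⟨c, hc⟩ := irr_end a m h1 h3
    have hs : ∀ w : (irr K a).Wm, ψ w = c • w := by
      intro w
      obtain ⟨x, rfl⟩ := (irr K a).pr_surj w
      rw [hm, hc]
      rfl
    have hc0 : c ≠ 0 := by
      rintro rfl
      apply hψ
      refine LinearMap.ext fun w => ?_
      rw [hs, zero_smul]
      rfl
    constructor
    · intro v w hvw
      rw [hs, hs] at hvw
      exact smul_right_injective _ hc0 hvw
    · intro w
      refine ⟨c⁻¹ • w, ?_⟩
      rw [hs, smul_smul, mul_inv_cancel₀ hc0, one_smul]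
  · exfalso
    obtain ⟨m, hm, h1, h2, h3⟩ := (irr K a).hom_desc (irr K b) ψ
    apply hψ
    have hm0 := irr_hom_zero hab m h1 h2 h3
    refine LinearMap.ext fun w => ?_
    obtain ⟨x, rfl⟩ := (irr K a).pr_surj w
    rw [hm, hm0]
    have : lactR (0 : (Fin (a + 1) → K) →ₗ[K] (Fin (b + 1) → K)) x = 0 := by
      have h := SL.lactR_sub (0 : (Fin (a + 1) → K) →ₗ[K] (Fin (b + 1) → K)) 0 x
      rw [sub_self, sub_self] at h
      exact h
    rw [this, map_zero]
    rfl

/-- Non-zero homomorphisms between the modules of the family are automorphisms. -/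
theorem fam_brick (K : Type u) [Field K] [CharZero K] (a b : ℕ) (φ : Xfam K a ⟶ Xfam K b)
    (hφ : φ ≠ 0) : a = b ∧ Function.Bijective φ.hom := by
  refine wm_brick a b φ.hom fun h => hφ ?_
  apply ModuleCat.hom_ext
  exact h

end Pool.Agent.Y374.RIG
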